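import Pool.Agent.W558.WT.Stms
import Pool.Agent.W177.WD.PCut

/-! WT-NAS (owner helper558): the normal form of a combination. -/

set_option autoImplicit false
set_option linter.unusedVariables false
set_option linter.unusedSectionVars false

universe u

open Polynomial

namespace Pool.Agent.W356.WT.Nas

open Pool.Agent.W558 Pool.Agent.W177.WD

section hd

variable {k L : Type u} [Field k] [Field L] [Algebra k L] {A : Subalgebra k L} {κ : Type u}
  [Field κ] [Algebra k κ] {φ : A →ₐ[k] κ}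

/-- `a` is contained in `A`, with derivative `d` and value `f`. -/
def HD (D : TV φ) (a : L) (d f : κ) : Prop := ∃ ha : a ∈ A, D.D ⟨a, ha⟩ = d ∧ φ ⟨a, ha⟩ = f

lemma HD.mul {D : TV φ} {a b : L} {d f d' f' : κ} (h1 : HD D a d f) (h2 : HD D b d' f') :
    HD D (a * b) (f * d' + f' * d) (f * f') := by
  obtain ⟨ha, h3, h4⟩ := h1
  obtain ⟨hb, h5, h6⟩ := h2
  refine ⟨A.mul_mem ha hb, ?_, ?_⟩
  · have h7 := D.leib ⟨a, ha⟩ ⟨b, hb⟩
    rw [h3, h4, h5, h6] at h7
    exact h7
  · have h7 : φ (⟨a, ha⟩ * ⟨b, hb⟩) = φ ⟨a, ha⟩ * φ ⟨b, hb⟩ := map_mul _ _ _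
    rw [h4, h6] at h7
    exact h7

lemma HD.sum {D : TV φ} {ι : Type} (s : Finset ι) (a : ι → L) (d f : ι → κ)
    (h : ∀ l ∈ s, HD D (a l) (d l) (f l)) :
    HD D (∑ l ∈ s, a l) (∑ l ∈ s, d l) (∑ l ∈ s, f l) := by
  classical
  induction s using Finset.induction_on with
  | empty =>
    refine ⟨by simp, ?_, ?_⟩
    · have : (⟨∑ l ∈ (∅ : Finset ι), a l, by simp⟩ : A) = 0 := Subtype.ext (by simp)
      rw [this, map_zero, Finset.sum_empty]
    · have : (⟨∑ l ∈ (∅ : Finset ι), a l, by simp⟩ : A) = 0 := Subtype.ext (by simp)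
      rw [this, map_zero, Finset.sum_empty]
  | insert b s hb ih =>
    obtain ⟨ha, h1, h2⟩ := h b (Finset.mem_insert_self b s)
    obtain ⟨hs, h3, h4⟩ := ih fun i hi => h i (Finset.mem_insert_of_mem hi)
    have hm : ∑ l ∈ insert b s, a l ∈ A := by
      rw [Finset.sum_insert hb]
      exact A.add_mem ha hs
    have e : (⟨∑ l ∈ insert b s, a l, hm⟩ : A) = ⟨a b, ha⟩ + ⟨∑ l ∈ s, a l, hs⟩ :=
      Subtype.ext (Finset.sum_insert hb)
    refine ⟨hm, ?_, ?_⟩
    · rw [e, map_add, h1, h3, Finset.sum_insert hb]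
    · rw [e, map_add, h2, h4, Finset.sum_insert hb]

lemma HD.of_LG {D : TV φ} {a : L} {s : κ} (h : LG D a s) (ha : a ∈ A) :
    HD D a (φ ⟨a, ha⟩ * s) (φ ⟨a, ha⟩) := ⟨ha, h.eq ha, rfl⟩

end hd

section zz

variable {k L : Type u} [Field k] [Field L] [Algebra k L] (p : ℕ) [Fact p.Prime] [CharP L p]

lemma zc_pow (a : ZMod p) : zc p L a ^ p = zc p L a := by
  rw [← map_pow, ZMod.pow_card]

lemma zc_val (a : ZMod p) : zc p L a = ((a.val : ℕ) : L) := by
  conv_lhs => rw [← ZMod.natCast_zmod_val a]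
  rw [map_natCast]

lemma zc_mem (A : Subalgebra k L) (a : ZMod p) : zc p L a ∈ A := by
  rw [zc_val]
  exact natCast_mem A _

lemma zc_hd {A : Subalgebra k L} {κ : Type u} [Field κ] [Algebra k κ] {φ : A →ₐ[k] κ} (D : TV φ)
    (a : ZMod p) : HD D (zc p L a) 0 (φ ⟨zc p L a, zc_mem p A a⟩) := by
  refine ⟨zc_mem p A a, ?_, rfl⟩
  have e : (⟨zc p L a, zc_mem p A a⟩ : A) = ((a.val : ℕ) : k) • (1 : A) := by
    apply Subtype.ext
    change zc p L a = ((a.val : ℕ) : k) • (1 : L)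
    rw [zc_val, Algebra.smul_def, map_natCast, mul_one]
  rw [e, map_smul, D.D_one, smul_zero]

lemma zc_ne {A : Subalgebra k L} {κ : Type u} [Field κ] [Algebra k κ] (φ : A →ₐ[k] κ)
    {a : ZMod p} (ha : a ≠ 0) : φ ⟨zc p L a, zc_mem p A a⟩ ≠ 0 := by
  intro h0
  have h1 : φ ⟨zc p L a, zc_mem p A a⟩ * φ ⟨zc p L a⁻¹, zc_mem p A a⁻¹⟩ = 1 := by
    rw [← map_mul, ← map_one φ]
    congr 1
    apply Subtype.ext
    change zc p L a * zc p L a⁻¹ = 1
    rw [← map_mul, mul_inv_cancel₀ ha, map_one]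
  rw [h0, zero_mul] at h1
  exact zero_ne_one h1

end zz

theorem main : WT_nas.{u} := by
  intro p _ k L _ _ _ _ T I ι _ _ _ M f n a h Λ R hT lam n' h' lr j0 hN
  classical
  have hw : ∀ t, ∃ w : L, w ^ p - w = ∑ j, zc p L ((lam - lr t) j) * f j :=
    fun t => hT.wl _ (hN.mem t)
  choose w hw using hw
  -- the exponents
  have hex : ∀ t l, lr t l ≠ 0 → ∀ i, 0 ≤ n l i - n' i ∨ (M.x t i)⁻¹ ∈ M.A t := by
    intro t l hl i
    rcases hN.le t l hl i with h1 | h1
    · rcases hN.eqn t i with h2 | h2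
      · left
        omega
      · exact Or.inr h2
    · exact Or.inr h1
  have hmA : ∀ t l, lr t l ≠ 0 → ∏ i, M.x t i ^ (n l i - n' i) ∈ M.A t := by
    intro t l hl
    refine (M.A t).prod_mem fun i _ => ?_
    exact zpow_mem_of (M.xA t i) (hex t l hl i)
  have hA' : ∀ t, h' t ∈ M.A t := by
    intro t
    rw [hN.hf t]
    refine (M.A t).sum_mem fun l _ => ?_
    by_cases hl : lr t l = 0
    · rw [hl, map_zero, zero_mul]
      exact (M.A t).zero_mem
    · exact (M.A t).mul_mem (zc_mem p _ _) ((M.A t).mul_mem (hmA t l hl) (hT.hA t l))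
  refine ⟨fun t => w t + ∑ l, zc p L (lr t l) * a t l, hN.n0, hA', ?_, ?_⟩
  · intro t
    have h1 : ∑ j, zc p L (lam j) * f j =
        ∑ j, zc p L ((lam - lr t) j) * f j + ∑ j, zc p L (lr t j) * f j := by
      rw [← Finset.sum_add_distrib]
      refine Finset.sum_congr rfl fun j _ => ?_
      rw [Pi.sub_apply, map_sub]
      ring
    have h2 : (∏ i, M.x t i ^ n' i) * h' t = ∑ l, zc p L (lr t l) * ((∏ i, M.x t i ^ n l i) * h t l) := by
      rw [hN.hf t, Finset.mul_sum]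
      refine Finset.sum_congr rfl fun l _ => ?_
      have h3 : (∏ i, M.x t i ^ n l i) =
          (∏ i, M.x t i ^ n' i) * ∏ i, M.x t i ^ (n l i - n' i) := by
        rw [← Finset.prod_mul_distrib]
        refine Finset.prod_congr rfl fun i _ => ?_
        rw [← zpow_add₀ (M.x0 t i)]
        congr 1
        ring
      rw [h3]
      ring
    have h3 : (w t + ∑ l, zc p L (lr t l) * a t l) ^ p = w t ^ p + ∑ l, zc p L (lr t l) * a t l ^ p := by
      rw [add_pow_char, sum_pow_char]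
      congr 1
      refine Finset.sum_congr rfl fun l _ => ?_
      rw [mul_pow, zc_pow]
    rw [h1, ← hw t, h2, h3]
    have h4 : ∑ j, zc p L (lr t j) * f j = ∑ j, zc p L (lr t j) * a t j ^ p -
        ∑ j, zc p L (lr t j) * a t j + ∑ l, zc p L (lr t l) * ((∏ i, M.x t i ^ n l i) * h t l) := by
      rw [← Finset.sum_sub_distrib, ← Finset.sum_add_distrib]
      refine Finset.sum_congr rfl fun j _ => ?_
      conv_lhs => rw [hT.eq t j]
      ring
    rw [h4]
    ring
  · rintro t κ _ _ φ ⟨i, hi, hi0⟩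
    have hx0 : ¬ (M.x t i)⁻¹ ∈ M.A t := by
      intro hi'
      have h1 : φ ⟨M.x t i, M.xA t i⟩ * φ ⟨(M.x t i)⁻¹, hi'⟩ = 1 := by
        rw [← map_mul, ← map_one φ]
        congr 1
        apply Subtype.ext
        exact mul_inv_cancel₀ (M.x0 t i)
      rw [hi0, zero_mul] at h1
      exact zero_ne_one h1
    have hj0R : j0 t ∉ R t := fun hj => hN.ne t (hN.zero t _ hj)
    have hnj : n (j0 t) i < 0 := by
      rcases hN.eqn t i with h1 | h1
      · rw [← h1]
        exact hi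
      · exact absurd h1 hx0
    obtain ⟨v, hv1, hv2⟩ := hT.ln t κ φ (j0 t) hj0R ⟨i, hnj, hi0⟩
    refine ⟨v, ?_⟩
    -- the monomials
    have hLG : ∀ l, lr t l ≠ 0 → LG v.D (∏ i, M.x t i ^ (n l i - n' i))
        (∑ i, ((n l i - n' i : ℤ) : κ) * v.e i) := by
      intro l hl
      refine LG.prod Finset.univ _ _ fun i _ => ?_
      refine LG.zpow ⟨M.xA t i, v.hx i (M.xA t i)⟩ (M.x0 t i) _ (hex t l hl i)
    let φm : ι → κ := fun l => if hl : lr t l ≠ 0 then
      φ ⟨∏ i, M.x t i ^ (n l i - n' i), hmA t l hl⟩ else 0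
    have hφm : ∀ l, lr t l ≠ 0 → HD v.D (∏ i, M.x t i ^ (n l i - n' i))
        (φm l * ∑ i, ((n l i - n' i : ℤ) : κ) * v.e i) (φm l) := by
      intro l hl
      have := HD.of_LG (hLG l hl) (hmA t l hl)
      have e : φm l = φ ⟨∏ i, M.x t i ^ (n l i - n' i), hmA t l hl⟩ := dif_pos hl
      rw [e]
      exact this
    have hsum : h' t = ∑ l ∈ Finset.univ.filter (fun l => lr t l ≠ 0),
        zc p L (lr t l) * ((∏ i, M.x t i ^ (n l i - n' i)) * h t l) := by
      rw [hN.hf t, Finset.sum_filter]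
      refine Finset.sum_congr rfl fun l _ => ?_
      split_ifs with hl
      · rfl
      · rw [not_not] at hl
        rw [hl, map_zero, zero_mul]
    obtain ⟨S, hS⟩ : ∃ S : ι → κ, S = fun l => φ ⟨zc p L (lr t l), zc_mem p _ _⟩ := ⟨_, rfl⟩
    obtain ⟨Dh, hDh⟩ : ∃ Dh : ι → κ, Dh = fun l => v.D.D ⟨h t l, hT.hA t l⟩ := ⟨_, rfl⟩
    obtain ⟨φh, hφh⟩ : ∃ φh : ι → κ, φh = fun l => φ ⟨h t l, hT.hA t l⟩ := ⟨_, rfl⟩
    have hHD := HD.sum (D := v.D) (Finset.univ.filter (fun l => lr t l ≠ 0))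
      (fun l => zc p L (lr t l) * ((∏ i, M.x t i ^ (n l i - n' i)) * h t l))
      (fun l => S l * (φm l * Dh l + φh l * (φm l * ∑ i, ((n l i - n' i : ℤ) : κ) * v.e i)) +
        (φm l * φh l) * 0)
      (fun l => S l * (φm l * φh l)) (by
        intro l hl
        have hl' : lr t l ≠ 0 := (Finset.mem_filter.1 hl).2
        have h1 : HD v.D (zc p L (lr t l)) 0 (S l) := by
          rw [hS]
          exact zc_hd p v.D (lr t l)
        have h2 : HD v.D (h t l) (Dh l) (φh l) := by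
          rw [hDh, hφh]
          exact ⟨hT.hA t l, rfl, rfl⟩
        exact h1.mul ((hφm l hl').mul h2))
    rw [← hsum] at hHD
    obtain ⟨hm, hD, hφ⟩ := hHD
    have hom : om v n' (hA' t) = ∑ l ∈ Finset.univ.filter (fun l => lr t l ≠ 0),
        S l * φm l * om v (n l) (hT.hA t l) := by
      have e1 : v.D.D ⟨h' t, hA' t⟩ = _ := hD
      have e2 : φ ⟨h' t, hA' t⟩ = _ := hφ
      unfold om
      rw [e1, e2, Finset.sum_mul, ← Finset.sum_add_distrib]
      refine Finset.sum_congr rfl fun l _ => ?_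
      have e3 : ∑ i, ((n l i - n' i : ℤ) : κ) * v.e i + ∑ i, (n' i : κ) * v.e i =
          ∑ i, (n l i : κ) * v.e i := by
        rw [← Finset.sum_add_distrib]
        refine Finset.sum_congr rfl fun i _ => ?_
        push_cast
        ring
      rw [← e3, hDh, hφh]
      ring
    rw [hom, Finset.sum_eq_single (j0 t)]
    · refine mul_ne_zero (mul_ne_zero ?_ ?_) hv1
      · rw [hS]
        exact zc_ne p φ (hN.ne t)
      · have e : φm (j0 t) = φ ⟨∏ i, M.x t i ^ (n (j0 t) i - n' i), hmA t _ (hN.ne t)⟩ :=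
          dif_pos (hN.ne t)
        rw [e]
        have hinv : ∏ i, M.x t i ^ (-(n (j0 t) i - n' i)) ∈ M.A t := by
          refine (M.A t).prod_mem fun i _ => ?_
          refine zpow_mem_of (M.xA t i) ?_
          rcases hN.eqn t i with h2 | h2
          · left
            omega
          · exact Or.inr h2
        intro h0
        have h1 : φ ⟨∏ i, M.x t i ^ (n (j0 t) i - n' i), hmA t _ (hN.ne t)⟩ *
            φ ⟨∏ i, M.x t i ^ (-(n (j0 t) i - n' i)), hinv⟩ = 1 := by
          rw [← map_mul, ← map_one φ]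
          congr 1
          apply Subtype.ext
          change (∏ i, M.x t i ^ (n (j0 t) i - n' i)) * ∏ i, M.x t i ^ (-(n (j0 t) i - n' i)) = 1
          rw [← Finset.prod_mul_distrib]
          refine Finset.prod_eq_one fun i _ => ?_
          rw [← zpow_add₀ (M.x0 t i), add_neg_cancel, zpow_zero]
        rw [h0, zero_mul] at h1
        exact zero_ne_one h1
    · intro l hl hne
      have hl' : lr t l ≠ 0 := (Finset.mem_filter.1 hl).2
      rw [hv2 l (fun hR => hl' (hN.zero t l hR)) hne, mul_zero]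
    · intro hj
      exact (hj (Finset.mem_filter.2 ⟨Finset.mem_univ (j0 t), hN.ne t⟩)).elim

end Pool.Agent.W356.WT.Nas
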